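import Pool.Agent.Helper46.C2.St

/-! # Project C2, module XB: a computation in a group. -/

set_option autoImplicit false

namespace Pool.Agent.Helper34.C2

open Pool.Agent.Helper46.C2

section

variable {G : Type} [Group G] {i x : G}

theorem rot1 (hi : i * i = 1) {a b c : ℤ} (h : i * x ^ a * i = x ^ b * i * x ^ c) :
    i * x ^ c * i = x ^ (-b) * i * x ^ a := by
  calc i * x ^ c * i = x ^ (-b) * (x ^ b * i * x ^ c) * i := by group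
    _ = x ^ (-b) * (i * x ^ a * i) * i := by rw [h]
    _ = x ^ (-b) * i * x ^ a * (i * i) := by group
    _ = x ^ (-b) * i * x ^ a := by rw [hi, mul_one]

theorem rot2 (hi : i * i = 1) {a b c : ℤ} (h : i * x ^ a * i = x ^ b * i * x ^ c) :
    i * x ^ b * i = x ^ a * i * x ^ (-c) := by
  calc i * x ^ b * i = i * (x ^ b * i * x ^ c) * x ^ (-c) := by group
    _ = i * (i * x ^ a * i) * x ^ (-c) := by rw [h]
    _ = (i * i) * (x ^ a * i * x ^ (-c)) := by group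
    _ = x ^ a * i * x ^ (-c) := by rw [hi, one_mul]

theorem inv1 (hi : i * i = 1) {a b c : ℤ} (h : i * x ^ a * i = x ^ b * i * x ^ c) :
    i * x ^ (-a) * i = x ^ (-c) * i * x ^ (-b) := by
  have hi' : i⁻¹ = i := inv_eq_of_mul_eq_one_right hi
  have h1 := congrArg (fun y => y⁻¹) h
  simp only [mul_inv_rev, hi', ← zpow_neg, ← mul_assoc] at h1
  exact h1

theorem mul1 (hi : i * i = 1) (a b : ℤ) :
    i * x ^ (a + b) * i = (i * x ^ a * i) * (i * x ^ b * i) := by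
  calc i * x ^ (a + b) * i = i * x ^ a * 1 * x ^ b * i := by group
    _ = i * x ^ a * (i * i) * x ^ b * i := by rw [hi]
    _ = (i * x ^ a * i) * (i * x ^ b * i) := by group

end

theorem hXB : StXB := by
  intro G _ x v g hg1 hg2 ha hb hc
  -- the involution
  set i : G := v ^ 8 * x ^ 2 with hidef
  have hi : i * i = 1 := by
    rw [hidef]
    calc v ^ 8 * x ^ 2 * (v ^ 8 * x ^ 2) = (v ^ 8 * x ^ 2 * v ^ 8) * x ^ 2 := by group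
      _ = 1 := by rw [hb]; group
  have hv8 : v ^ 8 = i * x ^ (-2 : ℤ) := by
    rw [hidef]; group
  have J1 : i * x ^ (-3 : ℤ) * i = x ^ (16 : ℤ) * i * x ^ (8 : ℤ) := by
    have h1 := ha
    rw [hv8] at h1
    calc i * x ^ (-3 : ℤ) * i = (i * x ^ (-2 : ℤ) * x⁻¹ * (i * x ^ (-2 : ℤ))) * x ^ (2 : ℤ) := by
          group
      _ = (x ^ 16 * (i * x ^ (-2 : ℤ)) * x ^ 8) * x ^ (2 : ℤ) := by rw [h1]
      _ = x ^ (16 : ℤ) * i * x ^ (8 : ℤ) := by group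
  have C8 : i * x ^ (8 : ℤ) * i = x ^ (-16 : ℤ) * i * x ^ (-3 : ℤ) := rot1 hi J1
  have C16 : i * x ^ (16 : ℤ) * i = x ^ (-3 : ℤ) * i * x ^ (-8 : ℤ) := rot2 hi J1
  have Cm8 : i * x ^ (-8 : ℤ) * i = x ^ (3 : ℤ) * i * x ^ (16 : ℤ) := by
    have := inv1 hi C8
    rwa [show (-(-3) : ℤ) = 3 by norm_num, show (-(-16) : ℤ) = 16 by norm_num] at this
  have J2 : i * x ^ (-19 : ℤ) * i = x ^ (13 : ℤ) * i * x ^ (-5 : ℤ) := by
    have h1 : i * x ^ (16 : ℤ) * i = (i * x ^ (8 : ℤ) * i) * (i * x ^ (8 : ℤ) * i) := by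
      have := mul1 (x := x) hi 8 8
      norm_num at this
      exact_mod_cast this
    rw [C16, C8] at h1
    calc i * x ^ (-19 : ℤ) * i = x ^ (16 : ℤ) * (x ^ (-16 : ℤ) * i * x ^ (-3 : ℤ) *
          (x ^ (-16 : ℤ) * i * x ^ (-3 : ℤ))) * x ^ (3 : ℤ) := by group
      _ = x ^ (16 : ℤ) * (x ^ (-3 : ℤ) * i * x ^ (-8 : ℤ)) * x ^ (3 : ℤ) := by rw [← h1]
      _ = x ^ (13 : ℤ) * i * x ^ (-5 : ℤ) := by group
  have C13 : i * x ^ (13 : ℤ) * i = x ^ (-19 : ℤ) * i * x ^ (5 : ℤ) := rot2 hi J2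
  have Cm5 : i * x ^ (-5 : ℤ) * i = x ^ (-13 : ℤ) * i * x ^ (-19 : ℤ) := rot1 hi J2
  have C5 : i * x ^ (5 : ℤ) * i = x ^ (19 : ℤ) * i * x ^ (13 : ℤ) := inv1 hi Cm5
  have C2 : i * x ^ (2 : ℤ) * i = x ^ (29 : ℤ) * (i * x ^ (-2 : ℤ) * i) * x ^ (29 : ℤ) := by
    have h1 : i * x ^ (2 : ℤ) * i = (i * x ^ (5 : ℤ) * i) * (i * x ^ (-3 : ℤ) * i) := by
      rw [← mul1 (x := x) hi 5 (-3), show (5 + -3 : ℤ) = 2 by norm_num]
    have h2 : i * x ^ (29 : ℤ) * i = (i * x ^ (16 : ℤ) * i) * (i * x ^ (13 : ℤ) * i) := by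
      rw [← mul1 (x := x) hi 16 13, show (16 + 13 : ℤ) = 29 by norm_num]
    have h3 : i * x ^ (-27 : ℤ) * i = (i * x ^ (-19 : ℤ) * i) * (i * x ^ (-8 : ℤ) * i) := by
      rw [← mul1 (x := x) hi (-19) (-8), show (-19 + -8 : ℤ) = -27 by norm_num]
    rw [C5, J1] at h1
    rw [C16, C13] at h2
    rw [J2, Cm8] at h3
    calc i * x ^ (2 : ℤ) * i = x ^ (19 : ℤ) * (i * x ^ (29 : ℤ) * i) * x ^ (8 : ℤ) := by
          rw [h1]; group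
      _ = x ^ (19 : ℤ) * (x ^ (-3 : ℤ) * (i * x ^ (-27 : ℤ) * i) * x ^ (5 : ℤ)) * x ^ (8 : ℤ) := by
          rw [h2]; group
      _ = x ^ (29 : ℤ) * (i * x ^ (-2 : ℤ) * i) * x ^ (29 : ℤ) := by
          rw [h3]; group
  have hm2 : i * x ^ (-2 : ℤ) * i = v ^ 16 * x ^ 2 := by
    have h1 : v ^ 16 = v ^ 8 * v ^ 8 := by rw [← pow_add]
    rw [h1, hv8]; group
  have h2' : i * x ^ (2 : ℤ) * i = (x ^ 2)⁻¹ * (v ^ 16)⁻¹ := by
    have hi' : i⁻¹ = i := inv_eq_of_mul_eq_one_right hi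
    have h1 := congrArg (fun y => y⁻¹) hm2
    simp only [mul_inv_rev, hi', ← zpow_neg, ← mul_assoc] at h1
    exact h1
  rw [hm2, h2'] at C2
  have hv16 : (v ^ 16)⁻¹ = x ^ 31 * v ^ 16 * x ^ 31 := by
    calc (v ^ 16)⁻¹ = x ^ 2 * ((x ^ 2)⁻¹ * (v ^ 16)⁻¹) := by group
      _ = x ^ 2 * (x ^ (29 : ℤ) * (v ^ 16 * x ^ 2) * x ^ (29 : ℤ)) := by rw [C2]
      _ = x ^ 31 * v ^ 16 * x ^ 31 := by group
  have hI : v ^ 16 * x ^ 33 * (v ^ 16)⁻¹ = (x ^ 33)⁻¹ := by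
    have h1 : x ^ 31 * v ^ 16 * x ^ 31 = x ^ 64 * v ^ 16 * x ^ 64 := by rw [← hv16, hc]
    calc v ^ 16 * x ^ 33 * (v ^ 16)⁻¹
        = (x ^ 64)⁻¹ * (x ^ 64 * v ^ 16 * x ^ 64) * (x ^ 31)⁻¹ * (v ^ 16)⁻¹ := by group
      _ = (x ^ 64)⁻¹ * (x ^ 31 * v ^ 16 * x ^ 31) * (x ^ 31)⁻¹ * (v ^ 16)⁻¹ := by rw [h1]
      _ = (x ^ 33)⁻¹ := by group
  -- conjugation by the square of g
  have hzx : (g * g) * x * (g * g)⁻¹ = x ^ 4 := by
    calc (g * g) * x * (g * g)⁻¹ = g * (g * x * g⁻¹) * g⁻¹ := by group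
      _ = g * v ^ 2 * g⁻¹ := by rw [hg1]
      _ = (g * v * g⁻¹) ^ 2 := by rw [conj_pow]
      _ = (x ^ 2) ^ 2 := by rw [hg2]
      _ = x ^ 4 := by rw [← pow_mul]
  have hzv : (g * g) * v * (g * g)⁻¹ = v ^ 4 := by
    calc (g * g) * v * (g * g)⁻¹ = g * (g * v * g⁻¹) * g⁻¹ := by group
      _ = g * x ^ 2 * g⁻¹ := by rw [hg2]
      _ = (g * x * g⁻¹) ^ 2 := by rw [conj_pow]
      _ = (v ^ 2) ^ 2 := by rw [hg1]
      _ = v ^ 4 := by rw [← pow_mul]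
  have hcx : ∀ n : ℕ, (g * g) * x ^ n * (g * g)⁻¹ = x ^ (4 * n) := by
    intro n
    rw [← conj_pow, hzx, ← pow_mul]
  have hcv : ∀ n : ℕ, (g * g) * v ^ n * (g * g)⁻¹ = v ^ (4 * n) := by
    intro n
    rw [← conj_pow, hzv, ← pow_mul]
  have h1 : v ^ 64 * x ^ 132 * (v ^ 64)⁻¹ = (x ^ 132)⁻¹ := by
    have h2 : (g * g) * (v ^ 16 * x ^ 33 * (v ^ 16)⁻¹) * (g * g)⁻¹ =
        (g * g) * (x ^ 33)⁻¹ * (g * g)⁻¹ := by rw [hI]
    have h3 : (g * g) * (v ^ 16 * x ^ 33 * (v ^ 16)⁻¹) * (g * g)⁻¹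
        = ((g * g) * v ^ 16 * (g * g)⁻¹) * ((g * g) * x ^ 33 * (g * g)⁻¹) *
          ((g * g) * v ^ 16 * (g * g)⁻¹)⁻¹ := by group
    have h4 : (g * g) * (x ^ 33)⁻¹ * (g * g)⁻¹ = ((g * g) * x ^ 33 * (g * g)⁻¹)⁻¹ := by
      rw [conj_inv]
    rw [h3, h4, hcx, hcv] at h2
    norm_num at h2
    exact h2
  have h5 : v ^ 64 * x ^ 132 * (v ^ 64)⁻¹ = x ^ 132 := by
    have h6 : v ^ 32 * x ^ 33 * (v ^ 32)⁻¹ = x ^ 33 := by
      have e1 : v ^ 32 * x ^ 33 * (v ^ 32)⁻¹ =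
          v ^ 16 * (v ^ 16 * x ^ 33 * (v ^ 16)⁻¹) * (v ^ 16)⁻¹ := by group
      have e2 : v ^ 16 * (x ^ 33)⁻¹ * (v ^ 16)⁻¹ = (v ^ 16 * x ^ 33 * (v ^ 16)⁻¹)⁻¹ := by group
      rw [e1, hI, e2, hI, inv_inv]
    have h7 : v ^ 64 * x ^ 33 * (v ^ 64)⁻¹ = x ^ 33 := by
      have e1 : v ^ 64 * x ^ 33 * (v ^ 64)⁻¹ =
          v ^ 32 * (v ^ 32 * x ^ 33 * (v ^ 32)⁻¹) * (v ^ 32)⁻¹ := by group
      rw [e1, h6, h6]
    have e3 : x ^ 132 = (x ^ 33) ^ 4 := by rw [← pow_mul]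
    rw [e3, ← conj_pow, h7]
  have hx264 : x ^ 264 = 1 := by
    have h6 : x ^ 132 = (x ^ 132)⁻¹ := by rw [← h1, h5]
    calc x ^ 264 = x ^ 132 * x ^ 132 := by rw [← pow_add]
      _ = x ^ 132 * (x ^ 132)⁻¹ := by rw [← h6]
      _ = 1 := mul_inv_cancel _
  -- roots
  have hroot : ∀ (y : G), (g * g) * y * (g * g)⁻¹ = y ^ 4 → ∀ n : ℕ, y ^ (4 * n) = 1 → y ^ n = 1 := by
    intro y hy n hn
    have h2 : (g * g) * y ^ n * (g * g)⁻¹ = 1 := by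
      rw [← conj_pow, hy, ← pow_mul, hn]
    have h3 : y ^ n = (g * g)⁻¹ * ((g * g) * y ^ n * (g * g)⁻¹) * (g * g) := by group
    rw [h3, h2]
    group
  have hx66 : x ^ 66 = 1 := hroot x hzx 66 hx264
  have hx33 : x ^ 33 = 1 := by
    apply hroot x hzx 33
    calc x ^ (4 * 33) = (x ^ 66) ^ 2 := by rw [← pow_mul]
      _ = 1 := by rw [hx66, one_pow]
  have hv66 : v ^ 66 = 1 := by
    calc v ^ 66 = (v ^ 2) ^ 33 := by rw [← pow_mul]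
      _ = (g * x * g⁻¹) ^ 33 := by rw [hg1]
      _ = g * x ^ 33 * g⁻¹ := by rw [conj_pow]
      _ = 1 := by rw [hx33]; group
  have hv33 : v ^ 33 = 1 := by
    apply hroot v hzv 33
    calc v ^ (4 * 33) = (v ^ 66) ^ 2 := by rw [← pow_mul]
      _ = 1 := by rw [hv66, one_pow]
  exact ⟨hx33, hv33⟩

end Pool.Agent.Helper34.C2
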